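import Pool.Agent.MP_1246c0_nt.H12.SpecA

/-! Existence of the data in the layers over the rationals and first properties. -/

namespace Pool.Agent.MP_1246c0_nt.H12

open NumberField IsDedekindDomain Polynomial Finset Pool.Agent.MP_db5b97_nt.H85

namespace DAT

theorem gd0 {n l : ℕ} (h : Gd n l) : Gd 0 l := ⟨h.1, h.2.1, Nat.zero_le _⟩

theorem qr_one {l : ℕ} : qr (1 : ZMod l) = 0 := if_pos IsSquare.one

theorem qr_prod (hQ : SQR) {l : ℕ} (hl : Gd 0 l) {ι : Type} (s : Finset ι) (f : ι → ZMod l)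
    (hf : ∀ i ∈ s, f i ≠ 0) : qr (∏ i ∈ s, f i) = ∑ i ∈ s, qr (f i) := by
  classical
  have := Fact.mk hl.1
  induction s using Finset.induction_on with
  | empty => simpa using qr_one
  | insert i s h ih =>
    have h1 : ∀ j ∈ s, f j ≠ 0 := fun j hj => hf j (mem_insert_of_mem hj)
    rw [prod_insert h, sum_insert h,
      hQ.mul l _ _ hl (hf i (mem_insert_self _ _)) (prod_ne_zero_iff.2 h1), ih h1]

section Cy

variable {F : Type} [Field F] [NumberField F] {n : ℕ} {θ : F} {γ : F ≃ₐ[ℚ] F}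

theorem pw_inj (hC : SCY) (c : Cy F n θ γ) :
    Function.Injective fun k : ZMod (2 ^ n) => γ⁻¹ ^ k.val := fun k k' h => by
  have ho : orderOf γ⁻¹ = 2 ^ n := by rw [orderOf_inv, (hC.gal F n θ γ c).2.2.1]
  refine ZMod.val_injective _ (pow_injOn_Iio_orderOf ?_ ?_ h)
  · rw [Set.mem_Iio, ho]
    exact ZMod.val_lt k
  · rw [Set.mem_Iio, ho]
    exact ZMod.val_lt k'

theorem pw_bij (hC : SCY) (c : Cy F n θ γ) :
    Function.Bijective fun k : ZMod (2 ^ n) => γ⁻¹ ^ k.val := by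
  have := (hC.gal F n θ γ c).1
  rw [Nat.bijective_iff_injective_and_card]
  exact ⟨pw_inj hC c, by rw [Nat.card_zmod, IsGalois.card_aut_eq_finrank, c.rk]⟩

theorem prod_eq (hC : SCY) (c : Cy F n θ γ) (x : 𝓞 F) :
    ∏ k : ZMod (2 ^ n), γ⁻¹ ^ k.val • x = ((Algebra.norm ℤ x : ℤ) : 𝓞 F) := by
  have := (hC.gal F n θ γ c).1
  apply RingOfIntegers.coe_injective
  have h1 := Algebra.norm_eq_prod_automorphisms ℚ (x : F)
  rw [← (pw_bij hC c).prod_comp, ← Algebra.coe_norm_int] at h1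
  rw [map_prod, map_intCast]
  exact h1.symm.trans (by simp)

/-- the twisted embedding -/
def tw' (ρ : F →+* ℝ) (g : F ≃ₐ[ℚ] F) : F →+* ℝ := ρ.comp (g : F →+* F)

theorem map_norm (hC : SCY) (c : Cy F n θ γ) (x : 𝓞 F) (ρ : F →+* ℝ) :
    ((Algebra.norm ℤ x : ℤ) : ℝ) = ∏ k : ZMod (2 ^ n), tw' ρ (γ⁻¹ ^ k.val) x := by
  have h := congrArg (fun y : 𝓞 F => ρ (y : F)) (prod_eq hC c x)
  simp only [map_prod, map_intCast] at h
  exact h.symm

theorem exists_real (hC : SCY) (c : Cy F n θ γ) : Nonempty (F →+* ℝ) :=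
  (Nat.card_pos_iff.1 (by rw [(hC.real F n θ γ c).2.1]; positivity)).1

omit [NumberField F] in
theorem mem_ker {l : ℕ} (ψ : 𝓞 F →+* ZMod l) : (l : 𝓞 F) ∈ RingHom.ker ψ := by
  rw [RingHom.mem_ker, map_natCast, ZMod.natCast_self]

theorem ker_ne {l : ℕ} (hl : l.Prime) (ψ : 𝓞 F →+* ZMod l) : RingHom.ker ψ ≠ ⊥ := fun h =>
  hl.ne_zero (by simpa [h] using mem_ker ψ)

omit [NumberField F] in
theorem ker_max {l : ℕ} (hl : l.Prime) (ψ : 𝓞 F →+* ZMod l) : (RingHom.ker ψ).IsMaximal := by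
  have := Fact.mk hl
  exact RingHom.ker_isMaximal_of_surjective ψ (ZMod.ringHom_surjective ψ)

theorem absNorm_ker {l : ℕ} (ψ : 𝓞 F →+* ZMod l) : Ideal.absNorm (RingHom.ker ψ) = l := by
  rw [Ideal.absNorm_apply, Submodule.cardQuot_apply,
    Nat.card_congr (RingHom.quotientKerEquivOfSurjective (ZMod.ringHom_surjective ψ)).toEquiv,
    Nat.card_zmod]

theorem exists_unit (hU : SUN) (c : Cy F n θ γ) (A : Set (F →+* ℝ)) :
    ∃ u : (𝓞 F)ˣ, ∀ ρ : F →+* ℝ, (ρ ∈ A → ρ (u : 𝓞 F) < 0) ∧ (ρ ∉ A → 0 < ρ (u : 𝓞 F)) := by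
  obtain ⟨u, hu, h⟩ := hU.sig F n θ γ c A
  obtain ⟨v, hv⟩ := (hU.int F u).1 hu
  refine ⟨v, fun ρ => ⟨fun hρ => hv ▸ (h ρ).2 hρ, fun hρ => ?_⟩⟩
  rw [← hv]
  exact lt_of_le_of_ne (not_lt.1 fun h' => hρ ((h ρ).1 h')) ((map_ne_zero ρ).2 u.val_ne).symm

theorem exists_gen (hU : SUN) (c : Cy F n θ γ) {I : Ideal (𝓞 F)} (hI : I ≠ ⊥) :
    ∃ a : 𝓞 F, Ideal.span {a} = I ^ classNumber F ∧ ∀ ρ : F →+* ℝ, 0 < ρ a := by
  have h0 : I ^ classNumber F ∈ nonZeroDivisors (Ideal (𝓞 F)) :=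
    mem_nonZeroDivisors_of_ne_zero (pow_ne_zero _ hI)
  have h1 : (I ^ classNumber F).IsPrincipal := by
    rw [← ClassGroup.mk0_eq_one_iff h0]
    have : (⟨I ^ classNumber F, h0⟩ : nonZeroDivisors (Ideal (𝓞 F))) =
      ⟨I, mem_nonZeroDivisors_of_ne_zero hI⟩ ^ classNumber F := rfl
    rw [this, map_pow, classNumber, pow_card_eq_one]
  obtain ⟨a, ha⟩ := h1
  have ha0 : (a : F) ≠ 0 := fun h => by
    have : a = 0 := by simpa using h
    exact pow_ne_zero _ hI (by simpa [this] using ha)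
  obtain ⟨u, hu⟩ := exists_unit hU c {ρ | ρ a < 0}
  refine ⟨u * a, ?_, fun ρ => ?_⟩
  · rw [Ideal.span_singleton_mul_left_unit u.isUnit]
    exact ha.symm
  · have e : ρ ((u * a : 𝓞 F) : F) = ρ (u : 𝓞 F) * ρ a := by simp
    rw [e]
    by_cases h : ρ a < 0
    · exact mul_pos_of_neg_of_neg ((hu ρ).1 h) h
    · exact mul_pos ((hu ρ).2 h) (lt_of_le_of_ne (not_lt.1 h) ((map_ne_zero ρ).2 ha0).symm)

end Cy

theorem ex (hC : SCY) (hD : SDEC) (hU : SUN) (hO : SODD) (n : ℕ) : Nonempty (Dat n) := by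
  obtain ⟨F, _, _, θ, γ, c⟩ := hC.ex n
  obtain ⟨ρ₀⟩ := exists_real hC c
  obtain ⟨η, hη⟩ := exists_unit hU c {ρ₀}
  have h : ∀ l : ℕ, ∃ (φ : 𝓞 F → ZMod l) (a : 𝓞 F), Gd n l → (∃ ψ : 𝓞 F →+* ZMod l,
      (∀ x, φ x = ψ x) ∧ Ideal.span {a} = RingHom.ker ψ ^ classNumber F) ∧
      ∀ ρ : F →+* ℝ, 0 < ρ a := fun l => by
    by_cases hl : Gd n l
    · obtain ⟨ψ⟩ := hD.split F n θ γ c l hl
      obtain ⟨a, h1, h2⟩ := exists_gen hU c (ker_ne hl.1 ψ)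
      exact ⟨ψ, a, fun _ => ⟨⟨ψ, fun _ => rfl, h1⟩, h2⟩⟩
    · exact ⟨0, 0, fun h => absurd h hl⟩
  choose φ π h using h
  exact ⟨⟨F, θ, γ, c, η, η.isUnit, ⟨ρ₀, (hη ρ₀).1 rfl, fun ρ hρ => (hη ρ).2 hρ⟩, classNumber F,
    hO F n θ γ c, φ, π, fun l hl => (h l hl).1, fun l hl => (h l hl).2⟩⟩

variable {n : ℕ} (D : Dat n)

theorem norm_pi (hC : SCY) {l : ℕ} (hl : Gd n l) : Algebra.norm ℤ (D.π l) = (l : ℤ) ^ D.h := by
  obtain ⟨ψ, -, h⟩ := D.hom l hl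
  obtain ⟨ρ⟩ := exists_real hC D.cy
  have h1 := Ideal.absNorm_span_singleton (D.π l)
  rw [h, map_pow, absNorm_ker] at h1
  have h2 : (0 : ℝ) < (Algebra.norm ℤ (D.π l) : ℤ) := by
    rw [map_norm hC D.cy _ ρ]
    exact prod_pos fun k _ => D.pos l hl _
  rw [← Nat.cast_pow, h1, Int.natAbs_of_nonneg (by exact_mod_cast h2.le)]

theorem norm_eta (hC : SCY) : Algebra.norm ℤ D.η = -1 := by
  obtain ⟨ρ, h1, h2⟩ := D.sgn
  have h3 : ((Algebra.norm ℤ D.η : ℤ) : ℝ) < 0 := by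
    rw [map_norm hC D.cy _ ρ, ← mul_prod_erase _ _ (mem_univ 0)]
    refine mul_neg_of_neg_of_pos (by simpa [tw'] using h1) (prod_pos fun k hk => h2 _ fun e => ?_)
    refine ne_of_mem_erase hk (pw_inj hC D.cy ?_)
    ext x
    simpa using ρ.injective (RingHom.congr_fun e x)
  rcases Int.isUnit_iff.1 (D.unit.map (Algebra.norm ℤ)) with h | h
  · rw [h] at h3
    norm_num at h3
  · exact h

theorem nz (hD : SDEC) {l l' : ℕ} (k : ZMod (2 ^ n)) (hl : Gd n l) (hl' : Gd n l')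
    (h : D.φ l' (D.γ⁻¹ ^ k.val • D.π l) = 0) : l = l' ∧ k = 0 := by
  obtain ⟨ψ, e, hψ⟩ := D.hom l hl
  obtain ⟨ψ', e', -⟩ := D.hom l' hl'
  let w : Sp D.F := ⟨RingHom.ker ψ', (ker_max hl'.1 ψ').isPrime, ker_ne hl'.1 ψ'⟩
  have h1 : D.π l ∈ (D.γ ^ k.val • w).asIdeal := by
    rw [mem_smul_iff, ← inv_pow]
    exact (e' _).symm.trans h
  have h2 : RingHom.ker ψ = (D.γ ^ k.val • w).asIdeal := by
    have := (D.γ ^ k.val • w).isPrime
    refine (ker_max hl.1 ψ).eq_of_le this.ne_top (Ideal.IsPrime.le_of_pow_le (n := D.h) ?_)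
    rwa [← hψ, Ideal.span_singleton_le_iff_mem]
  have h3 : l = l' := by
    have h4 := mem_ker ψ
    rw [h2, mem_smul_iff, smul_natCast] at h4
    have h5 : ((l : ℕ) : ZMod l') = 0 := (map_natCast ψ' l).symm.trans h4
    exact ((Nat.prime_dvd_prime_iff_eq hl'.1 hl.1).1 ((ZMod.natCast_eq_zero_iff _ _).1 h5)).symm
  subst h3
  refine ⟨rfl, ?_⟩
  have h4 : ψ = ψ' := RingHom.ext fun x => (e x).symm.trans (e' x)
  have h5 := ((hD.dec D.F n D.θ D.γ D.cy l w (gd0 hl) (mem_ker ψ')).1 k.val).1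
    (HeightOneSpectrum.ext (by rw [← h2, h4]))
  rw [min_eq_right hl.2.2] at h5
  exact (ZMod.val_eq_zero k).1 (Nat.eq_zero_of_dvd_of_lt h5 (ZMod.val_lt k))

theorem sum_sy (hC : SCY) (hQ : SQR) {l : ℕ} (hl : Gd n l) (x : 𝓞 D.F)
    (hx : ∀ k : ZMod (2 ^ n), D.φ l (D.γ⁻¹ ^ k.val • x) ≠ 0) :
    ∑ k, D.sy l x k = qr ((Algebra.norm ℤ x : ℤ) : ZMod l) := by
  obtain ⟨ψ, e, -⟩ := D.hom l hl
  rw [← map_intCast ψ, ← prod_eq hC D.cy, map_prod]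
  simp only [← e]
  exact (qr_prod hQ (gd0 hl) _ _ fun k _ => hx k).symm

end DAT

open DAT in
theorem rowDAT : OfDAT := fun hC hD hU hO hQ => by
  refine ⟨ex hC hD hU hO, fun n D l hl => ?_, fun n D l l' k => nz D hD k,
    fun n D l l' hl hl' hne => ?_, fun n D l hl => ?_, fun n D l => ?_⟩
  · rw [prod_eq hC D.cy, norm_pi D hC hl]
    simp
  · have h0 : (l : ZMod l') ≠ 0 := fun h =>
      hne ((Nat.prime_dvd_prime_iff_eq hl'.1 hl.1).1 ((ZMod.natCast_eq_zero_iff _ _).1 h)).symm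
    have h1 := qr_prod hQ (gd0 hl') (range D.h) (fun _ => (l : ZMod l')) fun _ _ => h0
    rw [prod_const, sum_const, card_range, nsmul_eq_mul, (ZMod.natCast_eq_one_iff_odd).2 D.odd,
      one_mul] at h1
    rw [Dat.rr, sum_sy D hC hQ hl' _ fun k h => hne (nz D hD k hl hl' h).1, norm_pi D hC hl]
    simpa [lg] using h1
  · have := Fact.mk hl.1
    obtain ⟨ψ, e, -⟩ := D.hom l hl
    rw [Dat.cc, sum_sy D hC hQ hl _ fun k => ?_, norm_eta D hC, ← hQ.neg l (gd0 hl)]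
    · simp
    · rw [e]
      exact ((D.unit.map (MulSemiringAction.toRingHom _ _ (D.γ⁻¹ ^ k.val))).map ψ).ne_zero
  · rw [← add_sum_erase _ _ (mem_univ 0),
      sum_congr rfl fun k hk => show D.ow l k = D.rr l l k from if_neg (ne_of_mem_erase hk),
      show D.ow l 0 = _ from if_pos rfl, add_assoc, CharTwo.add_self_eq_zero, add_zero]

end Pool.Agent.MP_1246c0_nt.H12
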